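import Pool.Agent.Helper87.GJ.Defs
import Pool.Agent.Helper36.GE.E1

/-!
# GJ, block J1a: zeros of high order form a countable set
-/

set_option autoImplicit false
open MeasureTheory Set Filter Topology
open Pool.Agent.Helper18.GP (F Cs KK fc fc_analytic fc_bound fc_zero fc_eq analytic_F iteratedDeriv_F hasDerivAt_F
  order_ge exists_ne bd bd_nonneg summable_bd term_le F_le cont_F rf rf_nonneg summable_term short meas_ind)
open Pool.Agent.GE.E1 (jens)

namespace Pool.Agent.Helper46.GJ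

/-! ### The large terms -/

theorem fc_bound2 {H H' R : ℝ} (hH : 0 ≤ H) {c : ℕ → ℝ} {m : ℕ} (h1 : ∀ j < m, |c j| ≤ H) (h2 : ∀ j, |c j| ≤ H')
    (hR0 : 0 < R) (hR1 : R < 1) (hm : R ^ m * H' ≤ H) {z : ℂ} (hz : ‖z‖ ≤ R) : ‖fc c z‖ ≤ 2 * H / (1 - R) := by
  have hH' : 0 ≤ H' := (abs_nonneg _).trans (h2 0)
  have hs1 : HasSum (fun j : ℕ => H * R ^ j) (H * (1 - R)⁻¹) := (hasSum_geometric_of_lt_one hR0.le hR1).mul_left H
  have hs2 : HasSum (fun j : ℕ => if m ≤ j then H * R ^ (j - m) else 0) (H * (1 - R)⁻¹) := by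
    rw [← hasSum_nat_add_iff' m]
    have e1 : ∑ i ∈ Finset.range m, (if m ≤ i then H * R ^ (i - m) else 0) = 0 := by
      refine Finset.sum_eq_zero fun i hi => ?_
      rw [if_neg (not_le.2 (Finset.mem_range.1 hi))]
    rw [e1, sub_zero]
    refine hs1.congr_fun ?_ |> fun h => h
    intro n
    simp
  have hs := hs1.add hs2
  rw [fc_eq]
  have h3 : H * (1 - R)⁻¹ + H * (1 - R)⁻¹ = 2 * H / (1 - R) := by
    rw [div_eq_mul_inv]; ring
  rw [← h3]
  refine tsum_of_norm_bounded hs fun j => ?_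
  rw [norm_mul, norm_pow, Complex.norm_real, Real.norm_eq_abs]
  have hz' : ‖z‖ ^ j ≤ R ^ j := pow_le_pow_left₀ (norm_nonneg _) hz j
  by_cases hj : m ≤ j
  · rw [if_pos hj]
    have h4 : R ^ j = R ^ m * R ^ (j - m) := by rw [← pow_add]; congr 1; omega
    calc |c j| * ‖z‖ ^ j ≤ H' * R ^ j := mul_le_mul (h2 j) hz' (by positivity) hH'
      _ = (R ^ m * H') * R ^ (j - m) := by rw [h4]; ring
      _ ≤ H * R ^ (j - m) := mul_le_mul_of_nonneg_right hm (by positivity)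
      _ ≤ H * R ^ j + H * R ^ (j - m) := by
        have : 0 ≤ H * R ^ j := by positivity
        linarith
  · rw [if_neg hj, add_zero]
    exact mul_le_mul (h1 j (by omega)) hz' (by positivity) hH

theorem small_tail {a : ℝ} (ha : 1 < a) {H : ℕ} (hH : 1 ≤ H) (r : ℕ) :
    ∃ m1 : ℕ, ∀ c ∈ Pool.Agent.GJ.Fs H r, ∀ x, a ≤ x → (∀ l ≤ KK a (2 * H), F l (fun j => (c j : ℝ)) x = 0) →
      ∀ j, m1 ≤ j → |c j| ≤ H := by
  have ha0 : 0 < a := by linarith
  have hs1 : 1 < √a := by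
    rw [Real.lt_sqrt (by norm_num)]
    simpa using ha
  set R : ℝ := (√a)⁻¹ with hR
  have hR0 : 0 < R := by positivity
  have hR1 : R < 1 := inv_lt_one_of_one_lt₀ hs1
  have hHr : (1 : ℝ) ≤ H := by exact_mod_cast hH
  have hr0 : (0 : ℝ) ≤ r := by positivity
  obtain ⟨m0, hm0⟩ := exists_pow_lt_of_lt_one (show 0 < (H : ℝ) / (H + r) by positivity) hR1
  refine ⟨m0 + r, fun c hc x hx hF => ?_⟩
  by_contra hcon
  push Not at hcon
  obtain ⟨j0, hj0, hj1⟩ := hcon
  obtain ⟨hc0, hcb, hcw⟩ := hc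
  have hcb' : ∀ j, |((c j : ℤ) : ℝ)| ≤ (H : ℝ) + r := fun j => by exact_mod_cast hcb j
  have hlow : ∀ j < m0, |((c j : ℤ) : ℝ)| ≤ (H : ℝ) := by
    intro j hj
    have := (hcw j j0 (by omega)).resolve_right (not_le.2 hj1)
    exact_mod_cast this
  have hx1 : 1 < x := lt_of_lt_of_le ha hx
  have hG := analytic_F (c := fun j => (c j : ℝ)) hcb' x hx1
  have h1 : ((KK a (2 * H) + 1 : ℕ) : ℕ∞) ≤ analyticOrderAt (F 0 (fun j => (c j : ℝ))) x := by
    rw [natCast_le_analyticOrderAt_iff_iteratedDeriv_eq_zero hG]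
    intro i hi
    rw [iteratedDeriv_F hx1 hcb']
    exact hF i (by omega)
  have h2 := order_ge hcb' hx1 h1 hG
  have h1R : 0 < 1 - R := by linarith
  have hL : 1 ≤ 2 * (H : ℝ) / (1 - R) := by
    rw [le_div_iff₀ h1R]
    linarith
  have h3 := jens ha (L := 2 * (H : ℝ) / (1 - R)) (fc_analytic hcb') (by
    rw [fc_zero, Complex.norm_real, Real.norm_eq_abs]
    have : 1 ≤ |c 0| := Int.one_le_abs hc0
    exact_mod_cast this) hL (fun z hz => fc_bound2 (by linarith) hlow hcb' hR0 hR1 (by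
      rw [lt_div_iff₀ (by positivity)] at hm0
      exact hm0.le) hz) hx h2
  unfold KK at h3
  rw [← hR] at h3
  omega

/-! ### Differences of two series -/

theorem F_sub {B x : ℝ} (hx : 1 < x) {c c' : ℕ → ℝ} (hc : ∀ j, |c j| ≤ B) (hc' : ∀ j, |c' j| ≤ B) (k n : ℕ)
    (h : ∀ j < n, c j = c' j) : F k c x - F k c' x =
      ∑' j : ℕ, (c (j + n) - c' (j + n)) * ((-1) ^ k * rf (j + n) k * (x⁻¹) ^ (j + n + k)) := by
  unfold F
  have h1 := summable_term hx hc k
  have h2 := summable_term hx hc' k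
  rw [← h1.tsum_sub h2, ← (h1.sub h2).sum_add_tsum_nat_add n]
  have h3 : ∑ i ∈ Finset.range n, (c i * ((-1) ^ k * rf i k * (x⁻¹) ^ (i + k)) -
      c' i * ((-1) ^ k * rf i k * (x⁻¹) ^ (i + k))) = 0 := by
    refine Finset.sum_eq_zero fun i hi => ?_
    rw [h i (Finset.mem_range.1 hi), sub_self]
  rw [h3, zero_add]
  refine tsum_congr fun j => ?_
  ring

theorem F_sub_zero {B x : ℝ} (hx : 1 < x) {c c' : ℕ → ℝ} (hc : ∀ j, |c j| ≤ B) (hc' : ∀ j, |c' j| ≤ B) (n : ℕ)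
    (h : ∀ j < n, c j = c' j) : F 0 c x - F 0 c' x = (x⁻¹) ^ n * F 0 (fun j => c (j + n) - c' (j + n)) x := by
  rw [F_sub hx hc hc' 0 n h]
  unfold F
  rw [← tsum_mul_left]
  refine tsum_congr fun j => ?_
  simp only [rf, Finset.range_zero, Finset.prod_empty, pow_zero, add_zero, mul_one]
  rw [pow_add]
  ring

theorem F_sub_le {B x s G : ℝ} (hs : 1 < s) (hsx : s ≤ x) {c c' : ℕ → ℝ} (hc : ∀ j, |c j| ≤ B) (hc' : ∀ j, |c' j| ≤ B)
    (k n : ℕ) (h : ∀ j < n, c j = c' j) (hG : ∀ j, |c (j + n) - c' (j + n)| ≤ G) :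
    |F k c x - F k c' x| ≤ G * (∑' j, bd k s j) * (s / x) ^ n := by
  have hx : 1 < x := lt_of_lt_of_le hs hsx
  have hs0 : 0 < s := by linarith
  have hx0 : 0 < x := by linarith
  have hG0 : 0 ≤ G := (abs_nonneg _).trans (hG 0)
  have hq0 : 0 ≤ s / x := by positivity
  have hq1 : s / x ≤ 1 := (div_le_one hx0).2 hsx
  rw [F_sub hx hc hc' k n h]
  have hsum : Summable (fun j => bd k s (j + n)) := (summable_nat_add_iff n).2 (summable_bd hs k)
  have h1 : |∑' j : ℕ, (c (j + n) - c' (j + n)) * ((-1) ^ k * rf (j + n) k * (x⁻¹) ^ (j + n + k))| ≤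
      ∑' j : ℕ, G * (s / x) ^ n * bd k s (j + n) := by
    rw [← Real.norm_eq_abs]
    refine tsum_of_norm_bounded (hsum.mul_left _).hasSum fun j => ?_
    rw [Real.norm_eq_abs, abs_mul, abs_mul, abs_mul, abs_pow, abs_neg, abs_one, one_pow, one_mul,
      abs_of_nonneg (rf_nonneg _ _), abs_of_nonneg (by positivity : (0 : ℝ) ≤ (x⁻¹) ^ (j + n + k))]
    have h2 : (x⁻¹) ^ (j + n + k) = (s⁻¹) ^ (j + n + k) * (s / x) ^ (j + n + k) := by
      rw [← mul_pow]
      congr 1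
      field_simp
    have h3 : (s / x) ^ (j + n + k) ≤ (s / x) ^ n := pow_le_pow_of_le_one hq0 hq1 (by omega)
    unfold bd
    rw [h2]
    have h4 : 0 ≤ rf (j + n) k * (s⁻¹) ^ (j + n + k) := mul_nonneg (rf_nonneg _ _) (by positivity)
    calc |c (j + n) - c' (j + n)| * (rf (j + n) k * ((s⁻¹) ^ (j + n + k) * (s / x) ^ (j + n + k)))
        = |c (j + n) - c' (j + n)| * ((rf (j + n) k * (s⁻¹) ^ (j + n + k)) * (s / x) ^ (j + n + k)) := by ring
      _ ≤ G * ((rf (j + n) k * (s⁻¹) ^ (j + n + k)) * (s / x) ^ n) :=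
          mul_le_mul (hG j) (mul_le_mul_of_nonneg_left h3 h4) (mul_nonneg h4 (by positivity)) hG0
      _ = _ := by ring
  refine h1.trans ?_
  rw [tsum_mul_left]
  have h5 : ∑' j, bd k s (j + n) ≤ ∑' j, bd k s j := by
    rw [← (summable_bd hs k).sum_add_tsum_nat_add n]
    have : 0 ≤ ∑ i ∈ Finset.range n, bd k s i := Finset.sum_nonneg fun i _ => bd_nonneg hs0 k i
    linarith
  have h6 : 0 ≤ G * (s / x) ^ n := by positivity
  calc G * (s / x) ^ n * ∑' j, bd k s (j + n) ≤ G * (s / x) ^ n * ∑' j, bd k s j := mul_le_mul_of_nonneg_left h5 h6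
    _ = _ := by ring

/-! ### Taylor -/

theorem taylor_zero {a B : ℝ} (ha : 1 < a) {c : ℕ → ℝ} (hc : ∀ j, |c j| ≤ B) {x : ℝ} (hx : a ≤ x) (i : ℕ)
    (h0 : ∀ l < i, F l c x = 0) (m : ℕ) : m ≤ i → ∀ y, a ≤ y →
      |F (i - m) c y| ≤ B * (∑' j, bd i a j) * |y - x| ^ m := by
  have hB0 : 0 ≤ B := (abs_nonneg _).trans (hc 0)
  have hT : 0 ≤ B * ∑' j, bd i a j := mul_nonneg hB0 (tsum_nonneg fun j => bd_nonneg (by linarith) i j)
  induction m with
  | zero =>
    intro _ y hy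
    rw [pow_zero, mul_one, Nat.sub_zero]
    exact F_le ha hy hc i
  | succ m ih =>
    intro hm y hy
    have hsub : uIcc x y ⊆ Ici a := by
      intro z hz
      have := (mem_uIcc.1 hz)
      rcases this with h | h
      · exact hx.trans h.1
      · exact hy.trans h.1
    have h1 := Convex.norm_image_sub_le_of_norm_hasDerivWithin_le (f := F (i - (m + 1)) c) (f' := F (i - m) c)
      (C := B * (∑' j, bd i a j) * |y - x| ^ m) (s := uIcc x y) (fun z hz => by
        have h2 := hasDerivAt_F (lt_of_lt_of_le ha (hsub hz)) hc (i - (m + 1))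
        rw [show i - (m + 1) + 1 = i - m by omega] at h2
        exact h2.hasDerivWithinAt) (fun z hz => by
        rw [Real.norm_eq_abs]
        refine (ih (by omega) z (hsub hz)).trans ?_
        refine mul_le_mul_of_nonneg_left (pow_le_pow_left₀ (abs_nonneg _) ?_ m) hT
        rw [abs_sub_comm z x, abs_sub_comm y x]
        exact abs_sub_left_of_mem_uIcc hz |> fun h => by
          rw [abs_sub_comm x z, abs_sub_comm x y]
          exact h) (convex_uIcc x y) left_mem_uIcc right_mem_uIcc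
    rw [h0 (i - (m + 1)) (by omega), sub_zero, Real.norm_eq_abs, Real.norm_eq_abs] at h1
    rw [pow_succ, ← mul_assoc]
    exact h1

theorem lip {a B : ℝ} (ha : 1 < a) {c : ℕ → ℝ} (hc : ∀ j, |c j| ≤ B) (k : ℕ) {x y : ℝ} (hx : a ≤ x) (hy : a ≤ y) :
    |F k c y - F k c x| ≤ B * (∑' j, bd (k + 1) a j) * |y - x| := by
  have h1 := Convex.norm_image_sub_le_of_norm_hasDerivWithin_le (f := F k c) (f' := F (k + 1) c)
    (C := B * (∑' j, bd (k + 1) a j)) (s := Ici a)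
    (fun z hz => (hasDerivAt_F (lt_of_lt_of_le ha hz) hc k).hasDerivWithinAt)
    (fun z hz => by rw [Real.norm_eq_abs]; exact F_le ha hz hc (k + 1)) (convex_Ici a) hx hy
  rwa [Real.norm_eq_abs, Real.norm_eq_abs] at h1

/-! ### Points of high order repel each other -/

/-- zeros of order `i`, with `i`-th derivative at least `d`, of the series with given first coefficients -/
def ZZ (a b : ℝ) (H r m1 i : ℕ) (d : ℝ) (p : Fin m1 → ℤ) : Set ℝ :=
  {x | x ∈ Icc a b ∧ ∃ c : ℕ → ℤ, (∀ j, |c j| ≤ H + r) ∧ (∀ j, m1 ≤ j → |c j| ≤ H) ∧ (∀ j : Fin m1, c j = p j) ∧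
    (∀ l < i, F l (fun j => (c j : ℝ)) x = 0) ∧ d ≤ |F i (fun j => (c j : ℝ)) x|}

theorem separated {a : ℝ} (ha : 1 < a) (b : ℝ) {H : ℕ} (hH : 1 ≤ H) (r m1 i : ℕ) (hi : KK a (2 * H) + 2 ≤ i) {d : ℝ}
    (hd : 0 < d) (p : Fin m1 → ℤ) : ∃ ρ₀ : ℝ, 0 < ρ₀ ∧ ∀ x ∈ ZZ a b H r m1 i d p, ∀ x' ∈ ZZ a b H r m1 i d p, x < x' →
      ρ₀ ≤ x' - x := by
  have ha0 : 0 < a := by linarith
  have hHr : (1 : ℝ) ≤ H := by exact_mod_cast hH
  obtain ⟨μ, η, B', hμ, hμ1, hη, hB', hFB, hsh⟩ := short b ha (H := 2 * (H : ℝ)) (by linarith)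
  set K : ℕ := KK a (2 * H) with hK
  -- constants
  set B0 : ℝ := (H : ℝ) + r with hB0
  have hB00 : 0 ≤ B0 := by positivity
  have hbd0 : ∀ k, 0 ≤ ∑' j, bd k a j := fun k => tsum_nonneg fun j => bd_nonneg ha0 k j
  set Bi : ℝ := B0 * ∑' j, bd i a j with hBi
  have hBi0 : 0 ≤ Bi := mul_nonneg hB00 (hbd0 i)
  set Bj : ℝ := B0 * ∑' j, bd (i + 1) a j with hBj
  have hBj0 : 0 ≤ Bj := mul_nonneg hB00 (hbd0 _)
  set s : ℝ := √(√a) with hs
  have hsq1 : 1 < √a := by
    rw [Real.lt_sqrt (by norm_num)]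
    simpa using ha
  have hs1 : 1 < s := by
    rw [hs, Real.lt_sqrt (by norm_num)]
    simpa using hsq1
  have hs0 : 0 < s := by linarith
  have hs2 : s ^ 2 = √a := by rw [hs, Real.sq_sqrt (by positivity)]
  have hs4 : s ^ 4 = a := by
    rw [show s ^ 4 = (s ^ 2) ^ 2 by ring, hs2, Real.sq_sqrt ha0.le]
  have hsa : s ≤ a := by
    rw [← hs4]
    calc s = s ^ 1 := (pow_one s).symm
      _ ≤ s ^ 4 := pow_le_pow_right₀ hs1.le (by norm_num)
  set C4 : ℝ := 2 * (H : ℝ) * ∑' j, bd (i - 1) s j with hC4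
  have hC40 : 0 ≤ C4 := mul_nonneg (by linarith) (tsum_nonneg fun j => bd_nonneg hs0 _ j)
  set C3 : ℝ := 2 * Bi * (2 ^ (K + 1)) ^ K / μ with hC3
  have hC30 : 0 ≤ C3 := by positivity
  set C5 : ℝ := C3 * (2 * C4 / d) ^ 2 with hC5
  have hC50 : 0 ≤ C5 := by positivity
  obtain ⟨N1, hN1⟩ := pow_unbounded_of_one_lt C5 hs1
  set b' : ℝ := max b 1 with hb'
  have hb'1 : 1 ≤ b' := le_max_right _ _
  have hb'0 : 0 < b' := by linarith
  set δ : ℝ := (b'⁻¹) ^ N1 / (2 * (C3 + 1)) with hδ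
  have hδ0 : 0 < δ := by positivity
  refine ⟨min (min 1 η) (min (min (s - 1) δ) (d / (2 * (Bj + 1)))), by
    refine lt_min (lt_min one_pos hη) (lt_min (lt_min (by linarith) hδ0) (by positivity)), ?_⟩
  rintro x ⟨hx, c, hcB, hcH, hcp, hc0, hcd⟩ x' ⟨hx', c', hcB', hcH', hcp', hc0', hcd'⟩ hxx
  by_contra hcon
  push Not at hcon
  set ρ : ℝ := x' - x with hρ
  have hρ0 : 0 < ρ := by linarith
  have hρ1 : ρ < 1 := lt_of_lt_of_le hcon ((min_le_left _ _).trans (min_le_left _ _))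
  have hρη : ρ < η := lt_of_lt_of_le hcon ((min_le_left _ _).trans (min_le_right _ _))
  have hρs : ρ < s - 1 := lt_of_lt_of_le hcon ((min_le_right _ _).trans ((min_le_left _ _).trans (min_le_left _ _)))
  have hρδ : ρ < δ := lt_of_lt_of_le hcon ((min_le_right _ _).trans ((min_le_left _ _).trans (min_le_right _ _)))
  have hρd : ρ < d / (2 * (Bj + 1)) := lt_of_lt_of_le hcon ((min_le_right _ _).trans (min_le_right _ _))
  have hBρ : Bj * ρ ≤ d / 2 := by
    rw [lt_div_iff₀ (by positivity)] at hρd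
    have h1 : Bj * ρ ≤ (Bj + 1) * ρ := mul_le_mul_of_nonneg_right (by linarith) hρ0.le
    have h2 : (Bj + 1) * ρ = ρ * (2 * (Bj + 1)) / 2 := by ring
    linarith
  have hx1 : 1 < x := lt_of_lt_of_le ha hx.1
  have hx0 : 0 < x := by linarith
  have hx'1 : 1 < x' := by linarith
  have hx'0 : 0 < x' := by linarith
  set cr : ℕ → ℝ := fun j => (c j : ℝ) with hcr
  set cr' : ℕ → ℝ := fun j => (c' j : ℝ) with hcr'
  have hcrB : ∀ j, |cr j| ≤ B0 := fun j => by
    show |((c j : ℤ) : ℝ)| ≤ (H : ℝ) + r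
    exact_mod_cast hcB j
  have hcrB' : ∀ j, |cr' j| ≤ B0 := fun j => by
    show |((c' j : ℤ) : ℝ)| ≤ (H : ℝ) + r
    exact_mod_cast hcB' j
  by_cases hcc : ∀ j, c j = c' j
  · -- equal series
    have hcr_eq : cr' = cr := by
      funext j
      simp only [hcr, hcr', hcc j]
    have h1 : F (i - 1) cr x = F (i - 1) cr x' := by
      rw [hc0 (i - 1) (by omega), ← hcr_eq, hc0' (i - 1) (by omega)]
    obtain ⟨ξ, hξ, hξ0⟩ := exists_hasDerivAt_eq_zero (f := F (i - 1) cr) (f' := F (i - 1 + 1) cr) hxx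
      (fun y hy => (hasDerivAt_F (lt_of_lt_of_le hx1 hy.1) hcrB (i - 1)).continuousAt.continuousWithinAt) h1
      (fun y hy => hasDerivAt_F (hx1.trans hy.1) hcrB (i - 1))
    rw [show i - 1 + 1 = i by omega] at hξ0
    have h2 := lip ha hcrB i hx.1 (hx.1.trans hξ.1.le)
    rw [hξ0, zero_sub, abs_neg] at h2
    have h3 : |ξ - x| ≤ ρ := by
      rw [abs_of_pos (by linarith [hξ.1])]
      linarith [hξ.2]
    have h4 : Bj * |ξ - x| ≤ Bj * ρ := mul_le_mul_of_nonneg_left h3 hBj0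
    linarith
  · -- different series
    push Not at hcc
    classical
    set n : ℕ := Nat.find hcc with hn
    have hcn : c n ≠ c' n := Nat.find_spec hcc
    have hlt : ∀ j < n, c j = c' j := fun j hj => not_not.1 (Nat.find_min hcc hj)
    have hnm : m1 ≤ n := by
      by_contra h
      push Not at h
      exact hcn ((hcp ⟨n, h⟩).trans (hcp' ⟨n, h⟩).symm)
    have hltr : ∀ j < n, cr j = cr' j := fun j hj => by simp only [hcr, hcr', hlt j hj]
    set D : ℕ → ℝ := fun j => cr (j + n) - cr' (j + n) with hD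
    have hDmem : D ∈ Cs (2 * (H : ℝ)) := by
      refine ⟨?_, fun j => ?_⟩
      · have h1 : 1 ≤ |c n - c' n| := Int.one_le_abs (sub_ne_zero.2 hcn)
        simp only [hD, hcr, hcr', zero_add]
        exact_mod_cast h1
      · have h1 : |cr (j + n)| ≤ H := by
          have := hcH (j + n) (by omega)
          simp only [hcr]
          exact_mod_cast this
        have h2 : |cr' (j + n)| ≤ H := by
          have := hcH' (j + n) (by omega)
          simp only [hcr']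
          exact_mod_cast this
        have h3 := abs_sub (cr (j + n)) (cr' (j + n))
        simp only [hD]
        linarith
    -- a point where `F 0 D` is large
    obtain ⟨k, hk, hkJ⟩ := hsh D hDmem x x' hx.1 hxx.le hx'.2 hρη.le
    set τ : ℝ := ρ / 2 ^ (k + 1) with hτ
    have hτ0 : 0 < τ := by positivity
    have hmeas := meas_ind (a := a) (b := b) (h := fun k => F k D)
      (fun k y hy => hasDerivAt_F (lt_of_lt_of_le ha hy.1) hDmem.2 k) hτ0 k μ hμ x x' hx.1 hxx.le hx'.2 hkJ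
    have hlt2 : (2 ^ k - 1) * (2 * τ) < ρ := by
      have h2k : (0 : ℝ) < 2 ^ k := by positivity
      have : (2 ^ k - 1) * (2 * τ) = ρ - ρ / 2 ^ k := by
        rw [hτ, pow_succ]
        field_simp
      rw [this]
      have : 0 < ρ / 2 ^ k := by positivity
      linarith
    have hexy : ∃ y ∈ Icc x x', μ * τ ^ k ≤ |F 0 D y| := by
      by_contra hno
      push Not at hno
      have h1 : Icc x x' ⊆ {y | y ∈ Icc x x' ∧ |F 0 D y| < μ * τ ^ k} := fun y hy => ⟨hy, hno y hy⟩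
      have h2 := (measure_mono h1).trans hmeas
      rw [Real.volume_Icc] at h2
      have h3 := (ENNReal.ofReal_le_ofReal_iff' ).1 h2
      rcases h3 with h3 | h3
      · linarith
      · linarith
    obtain ⟨y, hy, hyF⟩ := hexy
    have hy1 : 1 < y := lt_of_lt_of_le hx1 hy.1
    have hy0 : 0 < y := by linarith
    have hya : a ≤ y := hx.1.trans hy.1
    -- (B4)
    have hdiff := F_sub_zero hy1 hcrB hcrB' n hltr
    have hyx : |y - x| ≤ ρ := by
      rw [abs_of_nonneg (by linarith [hy.1])]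
      linarith [hy.2]
    have hyx' : |y - x'| ≤ ρ := by
      rw [abs_of_nonpos (by linarith [hy.2])]
      linarith [hy.1]
    have hT1 : |F 0 cr y| ≤ Bi * ρ ^ i := by
      have h1 := taylor_zero ha hcrB hx.1 i hc0 i le_rfl y hya
      rw [Nat.sub_self] at h1
      exact h1.trans (mul_le_mul_of_nonneg_left (pow_le_pow_left₀ (abs_nonneg _) hyx i) hBi0)
    have hT2 : |F 0 cr' y| ≤ Bi * ρ ^ i := by
      have h1 := taylor_zero ha hcrB' hx'.1 i hc0' i le_rfl y hya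
      rw [Nat.sub_self] at h1
      exact h1.trans (mul_le_mul_of_nonneg_left (pow_le_pow_left₀ (abs_nonneg _) hyx' i) hBi0)
    have hρi : ρ ^ i ≤ ρ ^ (K + 2) := pow_le_pow_of_le_one hρ0.le hρ1.le hi
    have hup : (y⁻¹) ^ n * |F 0 D y| ≤ 2 * Bi * ρ ^ (K + 2) := by
      have h1 : (y⁻¹) ^ n * |F 0 D y| = |F 0 cr y - F 0 cr' y| := by
        rw [hdiff, abs_mul, abs_of_pos (by positivity : (0 : ℝ) < (y⁻¹) ^ n)]
      rw [h1]
      have h2 := abs_sub (F 0 cr y) (F 0 cr' y)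
      have h3 : Bi * ρ ^ i ≤ Bi * ρ ^ (K + 2) := mul_le_mul_of_nonneg_left hρi hBi0
      linarith
    set τ' : ℝ := ρ / 2 ^ (K + 1) with hτ'
    have hτ'0 : 0 < τ' := by positivity
    have hτ'1 : τ' ≤ 1 := by
      rw [hτ', div_le_one (by positivity)]
      have : (1 : ℝ) ≤ 2 ^ (K + 1) := one_le_pow₀ (by norm_num)
      linarith
    have hττ : τ' ≤ τ := by
      rw [hτ, hτ']
      refine div_le_div_of_nonneg_left hρ0.le (by positivity) ?_
      exact pow_le_pow_right₀ (by norm_num) (by omega)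
    have hlow : μ * τ' ^ K ≤ |F 0 D y| := by
      refine le_trans (mul_le_mul_of_nonneg_left ?_ hμ.le) hyF
      calc τ' ^ K ≤ τ' ^ k := pow_le_pow_of_le_one hτ'0.le hτ'1 hk
        _ ≤ τ ^ k := pow_le_pow_left₀ hτ'0.le hττ k
    have hB4 : (y⁻¹) ^ n ≤ C3 * ρ ^ 2 := by
      have h1 : (y⁻¹) ^ n * (μ * τ' ^ K) ≤ 2 * Bi * ρ ^ (K + 2) :=
        (mul_le_mul_of_nonneg_left hlow (by positivity)).trans hup
      have h2 : (y⁻¹) ^ n * (μ * τ' ^ K) = ((y⁻¹) ^ n * μ / (2 ^ (K + 1)) ^ K) * ρ ^ K := by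
        rw [hτ', div_pow]
        ring
      have h3 : 2 * Bi * ρ ^ (K + 2) = (2 * Bi * ρ ^ 2) * ρ ^ K := by ring
      rw [h2, h3] at h1
      have h4 := le_of_mul_le_mul_right h1 (by positivity : (0 : ℝ) < ρ ^ K)
      rw [div_le_iff₀ (by positivity)] at h4
      rw [hC3, div_mul_eq_mul_div, le_div_iff₀ hμ]
      calc (y⁻¹) ^ n * μ ≤ 2 * Bi * ρ ^ 2 * (2 ^ (K + 1)) ^ K := h4
        _ = _ := by ring
    have hB4' : (x'⁻¹) ^ n ≤ C3 * ρ ^ 2 := by
      refine le_trans (pow_le_pow_left₀ (by positivity) (inv_anti₀ hy0 hy.2) n) hB4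
    -- (B5)
    obtain ⟨ξ, hξ, hξe⟩ := exists_hasDerivAt_eq_slope (F (i - 1) cr') (F (i - 1 + 1) cr') hxx
      (fun z hz => (hasDerivAt_F (lt_of_lt_of_le hx1 hz.1) hcrB' (i - 1)).continuousAt.continuousWithinAt)
      (fun z hz => hasDerivAt_F (hx1.trans hz.1) hcrB' (i - 1))
    rw [show i - 1 + 1 = i by omega, hc0' (i - 1) (by omega), zero_sub, eq_div_iff (by linarith)] at hξe
    have hξd : d / 2 ≤ |F i cr' ξ| := by
      have h1 := lip ha hcrB' i hx'.1 (hx.1.trans hξ.1.le)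
      have h2 : |ξ - x'| ≤ ρ := by
        rw [abs_of_neg (by linarith [hξ.2])]
        linarith [hξ.1]
      have h3 : Bj * |ξ - x'| ≤ Bj * ρ := mul_le_mul_of_nonneg_left h2 hBj0
      have h4 := abs_sub_abs_le_abs_sub (F i cr' x') (F i cr' ξ)
      rw [abs_sub_comm] at h4
      linarith
    have hB5 : d * ρ / 2 ≤ C4 * (s / x) ^ n := by
      have h1 : |F (i - 1) cr' x| = |F i cr' ξ| * ρ := by
        rw [← abs_neg, ← hξe, abs_mul, abs_of_pos (by linarith : 0 < x' - x)]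
      have h2 := F_sub_le hs1 (hsa.trans hx.1) hcrB' hcrB (i - 1) n (fun j hj => (hltr j hj).symm) (G := 2 * (H : ℝ))
        (fun j => by
          have := hDmem.2 j
          rwa [abs_sub_comm] at this)
      rw [hc0 (i - 1) (by omega), sub_zero, h1] at h2
      have h3 : d / 2 * ρ ≤ |F i cr' ξ| * ρ := mul_le_mul_of_nonneg_right hξd hρ0.le
      rw [hC4]
      calc d * ρ / 2 = d / 2 * ρ := by ring
        _ ≤ _ := h3.trans h2
    have hρle : ρ ≤ 2 * C4 / d * (s / x) ^ n := by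
      have h1 : ρ = (d * ρ / 2) * (2 / d) := by field_simp
      rw [h1]
      calc (d * ρ / 2) * (2 / d) ≤ (C4 * (s / x) ^ n) * (2 / d) := mul_le_mul_of_nonneg_right hB5 (by positivity)
        _ = _ := by ring
    have hρ2 : ρ ^ 2 ≤ (2 * C4 / d) ^ 2 * ((s / x) ^ n) ^ 2 := by
      rw [← mul_pow]
      exact pow_le_pow_left₀ hρ0.le hρle 2
    have hC5' : (x'⁻¹) ^ n ≤ C5 * ((s / x) ^ n) ^ 2 := by
      refine hB4'.trans ?_
      rw [hC5, mul_assoc]
      exact mul_le_mul_of_nonneg_left hρ2 hC30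
    have hkey : s ^ n ≤ C5 := by
      have h1 : (s * (s / x) ^ 2) ^ n ≤ (x'⁻¹) ^ n := by
        refine pow_le_pow_left₀ (by positivity) ?_ n
        rw [div_pow, ← mul_div_assoc, ← one_div, div_le_div_iff₀ (by positivity) hx'0, one_mul]
        have h2 : x' ≤ s * x := by
          have h3 : (s - 1) * 1 ≤ (s - 1) * x := mul_le_mul_of_nonneg_left hx1.le (by linarith)
          have h4 : s * x = x + (s - 1) * x := by ring
          linarith
        calc s * s ^ 2 * x' ≤ s * s ^ 2 * (s * x) := mul_le_mul_of_nonneg_left h2 (by positivity)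
          _ = s ^ 4 * x := by ring
          _ = a * x := by rw [hs4]
          _ ≤ x * x := mul_le_mul_of_nonneg_right hx.1 hx0.le
          _ = x ^ 2 := by ring
      have h2 := h1.trans hC5'
      have h3 : (s * (s / x) ^ 2) ^ n = s ^ n * ((s / x) ^ n) ^ 2 := by
        rw [mul_pow, ← pow_mul, ← pow_mul, mul_comm 2 n]
      rw [h3] at h2
      exact le_of_mul_le_mul_right h2 (by positivity)
    have hnN : n < N1 := (pow_lt_pow_iff_right₀ hs1).1 (lt_of_le_of_lt hkey hN1)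
    have hfin : (b'⁻¹) ^ N1 ≤ (x'⁻¹) ^ n := by
      calc (b'⁻¹) ^ N1 ≤ (b'⁻¹) ^ n := pow_le_pow_of_le_one (by positivity) (inv_le_one_of_one_le₀ hb'1) hnN.le
        _ ≤ (x'⁻¹) ^ n := pow_le_pow_left₀ (by positivity) (inv_anti₀ hx'0 (hx'.2.trans (le_max_left _ _))) n
    have h1 := hfin.trans hB4'
    have h2 : C3 * ρ ^ 2 ≤ (C3 + 1) * δ := by
      have : ρ ^ 2 ≤ δ := by
        calc ρ ^ 2 = ρ * ρ := sq ρ
          _ ≤ 1 * ρ := mul_le_mul_of_nonneg_right hρ1.le hρ0.le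
          _ ≤ δ := by linarith
      calc C3 * ρ ^ 2 ≤ C3 * δ := mul_le_mul_of_nonneg_left this hC30
        _ ≤ (C3 + 1) * δ := mul_le_mul_of_nonneg_right (by linarith) hδ0.le
    have h3 : (C3 + 1) * δ = (b'⁻¹) ^ N1 / 2 := by
      rw [hδ]
      field_simp
    have h4 : 0 < (b'⁻¹) ^ N1 := by positivity
    linarith

/-! ### The countable set -/

theorem ctb {a : ℝ} (ha : 1 < a) (b : ℝ) {H : ℕ} (hH : 1 ≤ H) (r : ℕ) :
    {x : ℝ | x ∈ Icc a b ∧ ∃ c ∈ Pool.Agent.GJ.Fs H r, ∀ l ≤ Pool.Agent.GJ.KJ a H, F l (fun j => (c j : ℝ)) x = 0}.Countable := by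
  obtain ⟨m1, hm1⟩ := small_tail ha hH r
  have hcount : ∀ q : ℕ × ℕ × (Fin m1 → ℤ),
      (if KK a (2 * H) + 2 ≤ q.1 then ZZ a b H r m1 q.1 (1 / ((q.2.1 : ℝ) + 1)) q.2.2 else ∅).Countable := by
    rintro ⟨i, k, p⟩
    split_ifs with hi
    · obtain ⟨ρ₀, hρ₀, hsep⟩ := separated ha b hH r m1 i hi (d := 1 / ((k : ℝ) + 1)) (by positivity) p
      refine Set.PairwiseDisjoint.countable_of_Ioo (y := fun x => x + ρ₀) ?_ (fun x _ => by linarith)
      intro x hx x' hx' hne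
      refine Set.disjoint_left.2 fun z hz hz' => ?_
      rcases lt_or_gt_of_ne hne with h | h
      · have := hsep x hx x' hx' h
        have h1 := hz.2
        have h2 := hz'.1
        linarith
      · have := hsep x' hx' x hx h
        have h1 := hz'.2
        have h2 := hz.1
        linarith
    · exact Set.countable_empty
  refine (Set.countable_iUnion hcount).mono ?_
  rintro x ⟨hx, c, hc, hF⟩
  have htail := hm1 c hc x hx.1 (fun l hl => hF l (by unfold Pool.Agent.GJ.KJ; omega))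
  have hcB : ∀ j, |((c j : ℤ) : ℝ)| ≤ (H : ℝ) + r := fun j => by exact_mod_cast hc.2.1 j
  have hmem : (fun j => (c j : ℝ)) ∈ Cs ((H : ℝ) + r) := by
    refine ⟨?_, hcB⟩
    have : 1 ≤ |c 0| := Int.one_le_abs hc.1
    show (1 : ℝ) ≤ |((c 0 : ℤ) : ℝ)|
    exact_mod_cast this
  obtain ⟨k0, -, hk0⟩ := exists_ne ha hmem hx.1
  classical
  have hex : ∃ l, F l (fun j => (c j : ℝ)) x ≠ 0 := ⟨k0, hk0⟩
  set i : ℕ := Nat.find hex with hi
  have hi0 : F i (fun j => (c j : ℝ)) x ≠ 0 := Nat.find_spec hex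
  have hlt : ∀ l < i, F l (fun j => (c j : ℝ)) x = 0 := fun l hl => not_not.1 (Nat.find_min hex hl)
  have hiK : KK a (2 * H) + 2 ≤ i := by
    by_contra h
    push Not at h
    exact hi0 (hF i (by unfold Pool.Agent.GJ.KJ; omega))
  obtain ⟨k, hk⟩ := exists_nat_one_div_lt (abs_pos.2 hi0)
  refine Set.mem_iUnion.2 ⟨(i, k, fun j => c j), ?_⟩
  simp only [if_pos hiK]
  exact ⟨hx, c, hc.2.1, htail, fun _ => rfl, hlt, hk.le⟩

end Pool.Agent.Helper46.GJ

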